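import Mathlib
import Pool.Agent.Helper35.HSF.StD

/-!
Project HSF (MP_925021_gt), module GSF: the limit of the normalised flow is a great sphere.
-/

set_option autoImplicit false

namespace Helper38.HSF

open Helper35.HSF Helper35.MS Helper35.PI Helper35.PI2 Helper32.CL
open scoped ContDiff Manifold Topology ENNReal BigOperators
open MeasureTheory Set Filter

/-- the unit sphere of the orthogonal complement of a unit vector is a linear isometric image of
the unit sphere -/
theorem exists_isom (n : ℕ) (e : EE (n + 2)) (he : ‖e‖ = 1) :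
    ∃ L : EE (n + 1) →ₗᵢ[ℝ] EE (n + 2), ∀ p : EE (n + 2),
      p ∈ L '' Metric.sphere (0 : EE (n + 1)) 1 ↔ ‖p‖ = 1 ∧ (inner ℝ p e : ℝ) = 0 := by
  have he0 : e ≠ 0 := by
    intro h
    rw [h, norm_zero] at he
    exact zero_ne_one he
  have : Fact (Module.finrank ℝ (EE (n + 2)) = (n + 1) + 1) := ⟨by
    simp⟩
  have hd : Module.finrank ℝ (ℝ ∙ e)ᗮ = n + 1 :=
    Submodule.finrank_orthogonal_span_singleton he0
  let b : OrthonormalBasis (Fin (n + 1)) ℝ (ℝ ∙ e)ᗮ :=
    (stdOrthonormalBasis ℝ (ℝ ∙ e)ᗮ).reindex (finCongr hd)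
  refine ⟨((ℝ ∙ e)ᗮ).subtypeₗᵢ.comp b.repr.symm.toLinearIsometry, fun p => ?_⟩
  constructor
  · rintro ⟨w, hw, rfl⟩
    rw [mem_sphere_zero_iff_norm] at hw
    refine ⟨by rw [LinearIsometry.norm_map]; exact hw, ?_⟩
    have h1 := (b.repr.symm w).2
    rw [Submodule.mem_orthogonal_singleton_iff_inner_left] at h1
    exact h1
  · rintro ⟨hp, hpe⟩
    have hm : p ∈ (ℝ ∙ e)ᗮ := by
      rw [Submodule.mem_orthogonal_singleton_iff_inner_left]
      exact hpe
    refine ⟨b.repr ⟨p, hm⟩, ?_, ?_⟩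
    · rw [mem_sphere_zero_iff_norm, LinearIsometryEquiv.norm_map]
      exact hp
    · simp

/-- GSF. The limit is a great sphere. -/
theorem hGSF (hSUR : StSUR) (hLGM : StLGM) (hIFT : StIFT) (hHNB : StHNB) : StGSF := by
  intro n h1n M _ _ _ _ _ _ T F ν hF hT k t₁ hk0 hk1 ht₁ hpin
  obtain ⟨C, α, hC, hα, -, hz⟩ := hIFT n h1n M T F ν hF hT k t₁ hk0 hk1 ht₁ hpin
  obtain ⟨G, C', hGc, hC', hG⟩ := hLGM n h1n M T F ν hF hT C α t₁ hC hα ht₁ hz
  have hsub : ∀ t ∈ Ico t₁ T, t ∈ Ioo 0 T := fun t ht => ⟨lt_of_lt_of_le ht₁.1 ht.1, ht.2⟩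
  -- powers
  have hpow : ∀ t ∈ Ico t₁ T, rr n t ^ (α - 1 / 2) * Real.sqrt (rr n t) = rr n t ^ α := by
    intro t ht
    have hr := hF.r0 t (hsub t ht)
    rw [Real.sqrt_eq_rpow, ← Real.rpow_add hr]
    congr 1
    ring
  -- chords
  have hch : ∀ t ∈ Ico t₁ T, ∀ x y, |(inner ℝ (F y t) (ν x t) : ℝ)|
      ≤ 2 * C * rr n t ^ α * Real.sqrt (rr n t) := by
    intro t ht x y
    have hr := hF.r0 t (hsub t ht)
    have hrα : 0 < rr n t ^ α := Real.rpow_pos_of_pos hr _
    by_cases hxy : F y t = F x t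
    · rw [hxy, hF.Fν x t (hsub t ht), abs_zero]
      positivity
    · have hm : zch F ν x y t ∈ ZS n F ν x t := Or.inl ⟨y, hxy, rfl⟩
      have h1 := hz t ht x _ hm
      have hd0 : 0 < ‖F y t - F x t‖ ^ 2 := by
        have : 0 < ‖F y t - F x t‖ := norm_pos_iff.2 (sub_ne_zero.2 hxy)
        positivity
      have h2 : (inner ℝ (F y t) (ν x t) : ℝ)
          = zch F ν x y t * ‖F y t - F x t‖ ^ 2 / 2 := by
        have h3 : (inner ℝ (F y t - F x t) (ν x t) : ℝ) = inner ℝ (F y t) (ν x t) := by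
          rw [inner_sub_left, hF.Fν x t (hsub t ht), sub_zero]
        unfold zch
        rw [h3, div_mul_cancel₀ _ hd0.ne']
        ring
      have hsx : ‖F x t‖ = Real.sqrt (rr n t) := by
        rw [← hF.sph x t (hsub t ht), Real.sqrt_sq (norm_nonneg _)]
      have hsy : ‖F y t‖ = Real.sqrt (rr n t) := by
        rw [← hF.sph y t (hsub t ht), Real.sqrt_sq (norm_nonneg _)]
      have h4 : ‖F y t - F x t‖ ≤ 2 * Real.sqrt (rr n t) := by
        have := norm_sub_le (F y t) (F x t)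
        rw [hsx, hsy] at this
        linarith
      have hsq : Real.sqrt (rr n t) ^ 2 = rr n t := Real.sq_sqrt hr.le
      have h5 : ‖F y t - F x t‖ ^ 2 ≤ 4 * Real.sqrt (rr n t) ^ 2 := by
        have h6 : ‖F y t - F x t‖ ^ 2 ≤ (2 * Real.sqrt (rr n t)) ^ 2 :=
          pow_le_pow_left₀ (norm_nonneg _) h4 2
        nlinarith [h6]
      rw [h2, abs_div, abs_mul, abs_of_pos hd0, abs_two]
      have h7 : |zch F ν x y t| * ‖F y t - F x t‖ ^ 2
          ≤ (C * rr n t ^ (α - 1 / 2)) * (4 * Real.sqrt (rr n t) ^ 2) :=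
        mul_le_mul h1 h5 hd0.le (le_trans (abs_nonneg _) h1)
      have h8 : (C * rr n t ^ (α - 1 / 2)) * (4 * Real.sqrt (rr n t) ^ 2)
          = 4 * C * (rr n t ^ (α - 1 / 2) * Real.sqrt (rr n t)) * Real.sqrt (rr n t) := by ring
      rw [h8, hpow t ht] at h7
      linarith
  -- normal curvatures
  have hnc : ∀ t ∈ Ico t₁ T, ∀ x, ∀ c : Fin n → ℝ, gn F x t c = 1 →
      Real.sqrt (rr n t) * |hn F ν x t c| ≤ C * rr n t ^ α := by
    intro t ht x c hc
    have h1 := hz t ht x _ (Or.inr ⟨c, hc, rfl⟩)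
    calc Real.sqrt (rr n t) * |hn F ν x t c|
        ≤ Real.sqrt (rr n t) * (C * rr n t ^ (α - 1 / 2)) :=
          mul_le_mul_of_nonneg_left h1 (Real.sqrt_nonneg _)
      _ = C * (rr n t ^ (α - 1 / 2) * Real.sqrt (rr n t)) := by ring
      _ = C * rr n t ^ α := by rw [hpow t ht]
  -- the limit of the powers
  have hT0 : rr n T = 0 := by
    unfold rr
    linarith
  have hlim : Tendsto (fun t => rr n t ^ α) (𝓝[<] T) (𝓝 0) := by
    have h1 : Tendsto (fun t => rr n t) (𝓝 T) (𝓝 (rr n T)) := by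
      have : Continuous (fun t => rr n t) := by
        unfold rr
        fun_prop
      exact this.tendsto T
    rw [hT0] at h1
    have h2 := (h1.mono_left (nhdsWithin_le_nhds (s := Iio T))).rpow_const (p := α)
      (Or.inr hα.le)
    rwa [Real.zero_rpow hα.ne'] at h2
  have hev : ∀ᶠ t in 𝓝[<] T, t ∈ Ico t₁ T := Ico_mem_nhdsLT ht₁.2
  -- the ultrafilter
  let U : Ultrafilter ℝ := Ultrafilter.of (𝓝[<] T)
  have hU : (U : Filter ℝ) ≤ 𝓝[<] T := Ultrafilter.of_le _
  obtain ⟨x₀⟩ := (inferInstance : Nonempty M)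
  obtain ⟨e, hes, heU⟩ := (isCompact_sphere (0 : EE (n + 2)) 1).ultrafilter_le_nhds
    (U.map (fun t => ν x₀ t)) (by
      rw [le_principal_iff]
      change (fun t => ν x₀ t) ⁻¹' Metric.sphere (0 : EE (n + 2)) 1 ∈ U
      refine hU ?_
      filter_upwards [hev] with t ht
      rw [mem_preimage, mem_sphere_zero_iff_norm]
      exact hF.nν x₀ t (hsub t ht))
  have heT : Tendsto (fun t => ν x₀ t) U (𝓝 e) := heU
  have he1 : ‖e‖ = 1 := mem_sphere_zero_iff_norm.1 hes
  obtain ⟨L, hL⟩ := exists_isom n e he1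
  have hlimU : Tendsto (fun t => rr n t ^ α) U (𝓝 0) := hlim.mono_left hU
  have hevU : ∀ᶠ t in (U : Filter ℝ), t ∈ Ico t₁ T := hU hev
  have hnf : ∀ t ∈ Ico t₁ T, ∀ y, ‖(1 / Real.sqrt (rr n t)) • F y t‖ = 1 := by
    intro t ht y
    have hr := hF.r0 t (hsub t ht)
    have hs : 0 < Real.sqrt (rr n t) := Real.sqrt_pos.2 hr
    have hsy : ‖F y t‖ = Real.sqrt (rr n t) := by
      rw [← hF.sph y t (hsub t ht), Real.sqrt_sq (norm_nonneg _)]
    rw [norm_smul, hsy, Real.norm_eq_abs, abs_of_pos (by positivity)]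
    field_simp
  have hfG : ∀ y, Tendsto (fun t => (1 / Real.sqrt (rr n t)) • F y t) U (𝓝 (G y)) := by
    intro y
    rw [tendsto_iff_norm_sub_tendsto_zero]
    refine squeeze_zero' (Eventually.of_forall fun _ => norm_nonneg _)
      (g := fun t => C' * rr n t ^ α) ?_ ?_
    · filter_upwards [hevU] with t ht
      exact hG t ht y
    · simpa using hlimU.const_mul C'
  have hGn : ∀ y, ‖G y‖ = 1 := by
    intro y
    have h1 := (hfG y).norm
    have h2 : Tendsto (fun t => ‖(1 / Real.sqrt (rr n t)) • F y t‖) U (𝓝 1) := by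
      refine tendsto_const_nhds.congr' ?_
      filter_upwards [hevU] with t ht
      exact (hnf t ht y).symm
    exact tendsto_nhds_unique h1 h2
  have hGe : ∀ y, (inner ℝ (G y) e : ℝ) = 0 := by
    intro y
    have h1 := (hfG y).inner (𝕜 := ℝ) heT
    have h2 : Tendsto (fun t => (inner ℝ ((1 / Real.sqrt (rr n t)) • F y t) (ν x₀ t) : ℝ)) U
        (𝓝 0) := by
      refine squeeze_zero_norm' (a := fun t => 2 * C * rr n t ^ α) ?_ ?_
      · filter_upwards [hevU] with t ht
        have hr := hF.r0 t (hsub t ht)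
        have hs : 0 < Real.sqrt (rr n t) := Real.sqrt_pos.2 hr
        rw [real_inner_smul_left, Real.norm_eq_abs, abs_mul, abs_of_pos (by positivity :
          0 < 1 / Real.sqrt (rr n t))]
        calc 1 / Real.sqrt (rr n t) * |(inner ℝ (F y t) (ν x₀ t) : ℝ)|
            ≤ 1 / Real.sqrt (rr n t) * (2 * C * rr n t ^ α * Real.sqrt (rr n t)) :=
              mul_le_mul_of_nonneg_left (hch t ht x₀ y) (by positivity)
          _ = 2 * C * rr n t ^ α := by field_simp
      · simpa using hlimU.const_mul (2 * C)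
    exact tendsto_nhds_unique h1 h2
  have hcpt : IsClosed (range G) := (isCompact_range hGc).isClosed
  have hrange : range G = L '' Metric.sphere (0 : EE (n + 1)) 1 := by
    apply Subset.antisymm
    · rintro _ ⟨y, rfl⟩
      exact (hL _).2 ⟨hGn y, hGe y⟩
    · intro p hp
      obtain ⟨hp1, hpe⟩ := (hL p).1 hp
      rw [← hcpt.closure_eq, Metric.mem_closure_iff]
      intro ε hε
      obtain ⟨δ, hδ, hS⟩ := hSUR n h1n (min (ε / 3) 1) (lt_min (by positivity) one_pos)
        (min_le_right _ _)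
      have hpl : Tendsto (fun t => (inner ℝ p (ν x₀ t) : ℝ)) U (𝓝 0) := by
        have := (tendsto_const_nhds (x := p)).inner (𝕜 := ℝ) heT
        rwa [hpe] at this
      have e1 : ∀ᶠ t in (U : Filter ℝ), |(inner ℝ p (ν x₀ t) : ℝ)| < δ := by
        have := hpl.abs
        rw [abs_zero] at this
        exact this.eventually (gt_mem_nhds hδ)
      have e2 : ∀ᶠ t in (U : Filter ℝ), 2 * C * rr n t ^ α < δ := by
        have : Tendsto (fun t => 2 * C * rr n t ^ α) U (𝓝 0) := by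
          simpa using hlimU.const_mul (2 * C)
        exact this.eventually (gt_mem_nhds hδ)
      have e3 : ∀ᶠ t in (U : Filter ℝ), C' * rr n t ^ α < ε / 3 := by
        have : Tendsto (fun t => C' * rr n t ^ α) U (𝓝 0) := by
          simpa using hlimU.const_mul C'
        exact this.eventually (gt_mem_nhds (by positivity))
      obtain ⟨t, ht, ht1, ht2, ht3⟩ := (hevU.and (e1.and (e2.and e3))).exists
      have hr := hF.r0 t (hsub t ht)
      have hrα : 0 < rr n t ^ α := Real.rpow_pos_of_pos hr _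
      obtain ⟨q, hq⟩ := hS M (Ioo 0 T) F ν hF t (hsub t ht)
        (fun x y => (hch t ht x y).trans
          (mul_le_mul_of_nonneg_right ht2.le (Real.sqrt_nonneg _)))
        (fun x c hc => (hnc t ht x c hc).trans (by nlinarith [mul_pos hC hrα]))
        x₀ p hp1 ht1.le
      refine ⟨G q, ⟨q, rfl⟩, ?_⟩
      have h1 := hG t ht q
      have h2 : ‖(1 / Real.sqrt (rr n t)) • F q t - p‖ ≤ ε / 3 := hq.trans (min_le_left _ _)
      rw [dist_eq_norm]
      calc ‖p - G q‖ = ‖((1 / Real.sqrt (rr n t)) • F q t - G q)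
            - ((1 / Real.sqrt (rr n t)) • F q t - p)‖ := by congr 1; abel
        _ ≤ ‖(1 / Real.sqrt (rr n t)) • F q t - G q‖
            + ‖(1 / Real.sqrt (rr n t)) • F q t - p‖ := norm_sub_le _ _
        _ < ε := by linarith
  refine ⟨G, L, C' + n * C ^ 2, α, hGc, hrange, by positivity, hα, fun t ht q => ⟨?_, ?_⟩⟩
  · have hr := hF.r0 t (hsub t ht)
    have hrα : 0 < rr n t ^ α := Real.rpow_pos_of_pos hr _
    refine (hG t ht q).trans (mul_le_mul_of_nonneg_right ?_ hrα.le)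
    have : (0 : ℝ) ≤ n * C ^ 2 := by positivity
    linarith
  · have hr := hF.r0 t (hsub t ht)
    have hr2 : 0 < rr n t ^ (2 * α) := Real.rpow_pos_of_pos hr _
    have h1 := (hHNB n h1n M (Ioo 0 T) F ν hF q t (hsub t ht)).2.2.2.2.2.2
      (C * rr n t ^ (α - 1 / 2)) (fun c hc => hz t ht q _ (Or.inr ⟨c, hc, rfl⟩))
    have h2 : rr n t * (n * (C * rr n t ^ (α - 1 / 2)) ^ 2) = n * C ^ 2 * rr n t ^ (2 * α) := by
      have h3 : rr n t * (rr n t ^ (α - 1 / 2)) ^ 2 = rr n t ^ (2 * α) := by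
        rw [← Real.rpow_natCast (rr n t ^ (α - 1 / 2)) 2, ← Real.rpow_mul hr.le]
        nth_rewrite 1 [← Real.rpow_one (rr n t)]
        rw [← Real.rpow_add hr]
        congr 1
        push_cast
        ring
      rw [← h3]
      ring
    calc rr n t * h2N n F q t ≤ rr n t * (n * (C * rr n t ^ (α - 1 / 2)) ^ 2) :=
          mul_le_mul_of_nonneg_left h1 hr.le
      _ = n * C ^ 2 * rr n t ^ (2 * α) := h2
      _ ≤ (C' + n * C ^ 2) * rr n t ^ (2 * α) := by
          refine mul_le_mul_of_nonneg_right ?_ hr2.le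
          linarith

end Helper38.HSF
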